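import Pool.Agent.Q205.Wand.Flow

/-! Bounded orbits: Poincare recurrence and Baire category. -/

set_option autoImplicit false

namespace Pool.Agent.Q205.Wand

open Filter Topology Set MeasureTheory

variable {X : Type*} [TopologicalSpace X] {φ : ℝ → X → X}

/-- Poincare recurrence in an invariant set of finite measure -/
theorem poincare [SecondCountableTopology X] [MeasurableSpace X] [BorelSpace X] (h : IsFlow φ)
    (μ : Measure X) (hμ : ∀ t, MeasurePreserving (φ t) μ μ) {S : Set X} (hS : MeasurableSet S)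
    (hinv : ∀ x ∈ S, ∀ t, φ t x ∈ S) (hfin : μ S ≠ ⊤) :
    ∀ᵐ x ∂μ, x ∈ S → Recurrent φ x := by
  set ℬ := TopologicalSpace.countableBasis X
  haveI : Countable ℬ := (TopologicalSpace.countable_countableBasis X).to_subtype
  have hopen : ∀ B : ℬ, IsOpen (B : Set X) := fun B =>
    TopologicalSpace.isOpen_of_mem_countableBasis B.2
  have key : ∀ a : ℬ × ℕ, ∀ᵐ x ∂μ, ¬ (x ∈ S ∧ x ∈ (a.1 : Set X) ∧ ∀ t : ℝ, (a.2 : ℝ) < t →
      φ t x ∉ (a.1 : Set X)) := by
    rintro ⟨B, n⟩
    set A : Set X := {x | x ∈ S ∧ x ∈ (B : Set X) ∧ ∀ t : ℝ, (n : ℝ) < t → φ t x ∉ (B : Set X)}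
      with hA
    have hmA : MeasurableSet A := by
      have : A = S ∩ ((B : Set X) ∩ (⋃ t : {t : ℝ // (n : ℝ) < t}, φ t ⁻¹' (B : Set X))ᶜ) := by
        ext x
        simp only [hA, mem_setOf_eq, mem_inter_iff, mem_compl_iff, mem_iUnion, mem_preimage,
          not_exists, Subtype.forall]
      rw [this]
      exact hS.inter ((hopen B).measurableSet.inter
        (isOpen_iUnion fun t => (hopen B).preimage (h.cont_t _)).measurableSet.compl)
    -- the sets `φ (k (n+1)) ⁻¹' A` are disjoint and in `S`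
    set r : ℕ → Set X := fun k => φ (k * (n + 1) : ℝ) ⁻¹' A with hr
    have hmr : ∀ k, MeasurableSet (r k) := fun k => (h.cont_t _).measurable hmA
    have hrS : ∀ k, r k ⊆ S := by
      intro k x hx
      have h1 := hinv _ hx.1 (-(k * (n + 1) : ℝ))
      rwa [h.neg_self] at h1
    have hdisj : Pairwise (Function.onFun Disjoint r) := by
      have aux : ∀ k l : ℕ, k < l → Disjoint (r k) (r l) := by
        intro k l hkl
        rw [Set.disjoint_left]
        intro y hy1 hy2
        simp only [hr, mem_preimage] at hy1 hy2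
        have e : φ (l * (n + 1) : ℝ) y = φ (((l - k : ℕ) : ℝ) * (n + 1)) (φ (k * (n + 1) : ℝ) y) := by
          rw [← h.add]
          congr 1
          push_cast [Nat.cast_sub hkl.le]
          ring
        rw [e] at hy2
        refine hy1.2.2 _ ?_ hy2.2.1
        have h1 : (1 : ℝ) ≤ ((l - k : ℕ) : ℝ) := by exact_mod_cast Nat.sub_pos_of_lt hkl
        nlinarith
      intro k l hkl
      rcases lt_or_gt_of_ne hkl with h1 | h1
      · exact aux k l h1
      · exact (aux l k h1).symm
    have hmeas : ∀ k, μ (r k) = μ A := fun k => (hμ _).measure_preimage hmA.nullMeasurableSet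
    have hsum : ∑' k, μ (r k) ≤ μ S := by
      rw [← measure_iUnion hdisj hmr]
      exact measure_mono (iUnion_subset hrS)
    have hzero : μ A = 0 := by
      by_contra hne
      have : ∑' k : ℕ, μ (r k) = ⊤ := by
        simp_rw [hmeas]
        exact ENNReal.tsum_const_eq_top_of_ne_zero hne
      rw [this, top_le_iff] at hsum
      exact hfin hsum
    exact measure_eq_zero_iff_ae_notMem.1 hzero
  have hall : ∀ᵐ x ∂μ, ∀ a : ℬ × ℕ, ¬ (x ∈ S ∧ x ∈ (a.1 : Set X) ∧ ∀ t : ℝ, (a.2 : ℝ) < t →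
      φ t x ∉ (a.1 : Set X)) := ae_all_iff.2 key
  filter_upwards [hall] with x hx hxS
  by_contra hr
  unfold Recurrent at hr
  push_neg at hr
  obtain ⟨V, hV, T, hT⟩ := hr
  obtain ⟨B, hB, hxB, hBV⟩ := (TopologicalSpace.isBasis_countableBasis X).mem_nhds_iff.1 hV
  obtain ⟨n, hn⟩ := exists_nat_ge T
  exact hx ((⟨B, hB⟩ : ℬ), n) ⟨hxS, hxB, fun t ht htB => hT t (lt_of_le_of_lt hn ht) (hBV htB)⟩

/-- the function `r` is bounded along the (complete) orbit of `x` -/
def BoundedAlong (φ : ℝ → X → X) (r : X → ℝ) (x : X) : Prop := ∃ R : ℝ, ∀ t, r (φ t x) ≤ R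

/-- either unbounded orbits are generic in `U`, or `r` is uniformly bounded along all the orbits
starting in some open part of `U` -/
theorem residual_or_bounded (h : IsFlow φ) {r : X → ℝ} (hr : Continuous r) {U : Set X}
    (hU : IsOpen U) :
    (∀ᶠ x in residual X, x ∈ U → ¬ BoundedAlong φ r x) ∨
      ∃ V : Set X, IsOpen V ∧ V.Nonempty ∧ V ⊆ U ∧ ∃ R : ℝ, ∀ x ∈ V, ∀ t, r (φ t x) ≤ R := by
  by_cases hd : ∀ n : ℕ, ∀ W : Set X, IsOpen W → W.Nonempty → W ⊆ U →
      ∃ x ∈ W, ∃ t, (n : ℝ) < r (φ t x)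
  · left
    have key : ∀ n : ℕ, ∀ᶠ x in residual X, x ∈ U → ∃ t, (n : ℝ) < r (φ t x) := by
      intro n
      set O : Set X := ⋃ t : ℝ, {x | (n : ℝ) < r (φ t x)} with hO
      have hOo : IsOpen O := isOpen_iUnion fun t =>
        isOpen_lt continuous_const (hr.comp (h.cont_t t))
      have ho : IsOpen (O ∪ (closure U)ᶜ) := hOo.union isClosed_closure.isOpen_compl
      have hdd : Dense (O ∪ (closure U)ᶜ) := by
        rw [dense_iff_inter_open]
        intro W hW hne
        by_cases hWU : (W ∩ U).Nonempty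
        · obtain ⟨x, hx, t, ht⟩ := hd n (W ∩ U) (hW.inter hU) hWU inter_subset_right
          exact ⟨x, hx.1, Or.inl (mem_iUnion.2 ⟨t, ht⟩)⟩
        · obtain ⟨x, hx⟩ := hne
          refine ⟨x, hx, Or.inr fun hcl => ?_⟩
          rw [mem_closure_iff] at hcl
          exact hWU (hcl W hW hx)
      filter_upwards [residual_of_dense_open ho hdd] with x hx hxU
      rcases hx with hx | hx
      · exact mem_iUnion.1 hx
      · exact (hx (subset_closure hxU)).elim
    filter_upwards [eventually_countable_forall.2 key] with x hx hxU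
    rintro ⟨R, hR⟩
    obtain ⟨n, hn⟩ := exists_nat_ge R
    obtain ⟨t, ht⟩ := hx n hxU
    exact absurd (hR t) (not_le.2 (lt_of_le_of_lt hn ht))
  · right
    push_neg at hd
    obtain ⟨n, W, hW, hne, hWU, hb⟩ := hd
    exact ⟨W, hW, hne, hWU, n, hb⟩

end Pool.Agent.Q205.Wand
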