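import Pool.Agent.Q205.Wand.Flow

/-! Families of flows: stable wandering and the generic alternative. -/

set_option autoImplicit false

namespace Pool.Agent.Q205.Wand

open Filter Topology Set MeasureTheory

/-- A continuous family of flows on `X` with parameters in `𝓕`. -/
structure FlowFamily (𝓕 X : Type*) [TopologicalSpace 𝓕] [TopologicalSpace X] where
  φ : 𝓕 → ℝ → X → X
  cont : Continuous (fun z : 𝓕 × ℝ × X => φ z.1 z.2.1 z.2.2)
  zero : ∀ f x, φ f 0 x = x
  add : ∀ f s t x, φ f (s + t) x = φ f s (φ f t x)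

variable {𝓕 X : Type*} [TopologicalSpace 𝓕] [TopologicalSpace X]

theorem FlowFamily.isFlow (Φ : FlowFamily 𝓕 X) (f : 𝓕) : IsFlow (Φ.φ f) where
  cont := Φ.cont.comp (by fun_prop : Continuous (fun z : ℝ × X => (f, z.1, z.2)))
  zero := Φ.zero f
  add := Φ.add f

/-- `(f, x)` is stably wandering: the same neighbourhood `V` of `x` and the same `T` work for all
parameters near `f`. -/
def StablyWandering (Φ : FlowFamily 𝓕 X) (f : 𝓕) (x : X) : Prop :=
  ∃ 𝓥 : Set 𝓕, IsOpen 𝓥 ∧ f ∈ 𝓥 ∧ ∃ V : Set X, IsOpen V ∧ x ∈ V ∧ ∃ T : ℝ,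
    ∀ f' ∈ 𝓥, ∀ t, T < t → ∀ y ∈ V, Φ.φ f' t y ∉ V

theorem isOpen_stably (Φ : FlowFamily 𝓕 X) :
    IsOpen {z : 𝓕 × X | StablyWandering Φ z.1 z.2} := by
  rw [isOpen_iff_mem_nhds]
  rintro ⟨f, x⟩ ⟨𝓥, h𝓥, hf, V, hV, hx, T, hT⟩
  filter_upwards [prod_mem_nhds (h𝓥.mem_nhds hf) (hV.mem_nhds hx)] with z hz
  exact ⟨𝓥, h𝓥, hz.1, V, hV, hz.2, T, hT⟩

theorem wandering_of_stably {Φ : FlowFamily 𝓕 X} {f : 𝓕} {x : X} (h : StablyWandering Φ f x) :
    Wandering (Φ.φ f) x := by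
  obtain ⟨𝓥, h𝓥, hf, V, hV, hx, T, hT⟩ := h
  exact ⟨V, hV, hx, T, hT f hf⟩

/-- For generic `f` every wandering point of `Φ f` is a limit of stably wandering points. -/
theorem generic_wandering [SecondCountableTopology X] (Φ : FlowFamily 𝓕 X) :
    ∀ᶠ f in residual 𝓕, ∀ x, Wandering (Φ.φ f) x → StablyWandering Φ f x := by
  set ℬ := TopologicalSpace.countableBasis X
  haveI : Countable ℬ := (TopologicalSpace.countable_countableBasis X).to_subtype
  have hopen : ∀ B : ℬ, IsOpen (B : Set X) := fun B =>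
    TopologicalSpace.isOpen_of_mem_countableBasis B.2
  set O : ℬ × ℕ → Set 𝓕 := fun a => {f | ∃ t : ℝ, (a.2 : ℝ) < t ∧ ∃ y ∈ (a.1 : Set X),
    Φ.φ f t y ∈ (a.1 : Set X)} with hO
  have hOo : ∀ a, IsOpen (O a) := by
    rintro ⟨B, n⟩
    have : O (B, n) = ⋃ t : {t : ℝ // (n : ℝ) < t}, ⋃ y : (B : Set X),
        (fun f => Φ.φ f t y) ⁻¹' (B : Set X) := by
      ext f
      simp only [hO, mem_setOf_eq, mem_iUnion, mem_preimage, Subtype.exists, exists_prop]
    rw [this]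
    refine isOpen_iUnion fun t => isOpen_iUnion fun y => (hopen B).preimage ?_
    exact Φ.cont.comp (by fun_prop : Continuous (fun f : 𝓕 => (f, (t : ℝ), (y : X))))
  have hres : ∀ᶠ f in residual 𝓕, ∀ a : ℬ × ℕ, f ∉ frontier (O a) := by
    rw [eventually_countable_forall]
    intro a
    have hd : Dense (frontier (O a))ᶜ := by
      have := interior_frontier (hOo a).isClosed_compl
      rw [frontier_compl] at this
      exact interior_eq_empty_iff_dense_compl.1 this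
    exact residual_of_dense_open isClosed_frontier.isOpen_compl hd
  filter_upwards [hres] with f hf x hx
  obtain ⟨V, hV, hxV, T, hT⟩ := hx
  obtain ⟨B, hB, hxB, hBV⟩ := (TopologicalSpace.isBasis_countableBasis X).mem_nhds_iff.1
    (hV.mem_nhds hxV)
  obtain ⟨n, hn⟩ := exists_nat_ge T
  set a : ℬ × ℕ := ((⟨B, hB⟩ : ℬ), n) with ha
  have hfn : f ∉ O a := by
    rintro ⟨t, ht, y, hy, hyt⟩
    exact hT t (lt_of_le_of_lt hn ht) y (hBV hy) (hBV hyt)
  have hcl : f ∉ closure (O a) := by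
    intro hcl
    exact hf a ⟨hcl, by rwa [(hOo a).interior_eq]⟩
  refine ⟨(closure (O a))ᶜ, isClosed_closure.isOpen_compl, hcl, B,
    TopologicalSpace.isOpen_of_mem_countableBasis hB, hxB, n, ?_⟩
  intro f' hf' t ht y hy hyt
  exact hf' (subset_closure ⟨t, ht, y, hy, hyt⟩)

end Pool.Agent.Q205.Wand
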