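import Mathlib

/-! Wandering points, escape and recurrence for flows preserving a measure. -/

set_option autoImplicit false

namespace Pool.Agent.Q205.Wand

open Filter Topology Set MeasureTheory

/-- `φ` is a continuous flow on `X` (time is real). -/
structure IsFlow {X : Type*} [TopologicalSpace X] (φ : ℝ → X → X) : Prop where
  cont : Continuous (fun z : ℝ × X => φ z.1 z.2)
  zero : ∀ x, φ 0 x = x
  add : ∀ s t x, φ (s + t) x = φ s (φ t x)

/-- the orbit of `x` tends to infinity (leaves every compact set) as `t → +∞` -/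
def Escapes {X : Type*} [TopologicalSpace X] (φ : ℝ → X → X) (x : X) : Prop :=
  Tendsto (fun t : ℝ => φ t x) atTop (cocompact X)

/-- the reversed flow -/
def rev {X : Type*} (φ : ℝ → X → X) : ℝ → X → X := fun t => φ (-t)

/-- `x` is wandering: for some neighbourhood `V` and `T`, no orbit leaves `V` and is in `V` again
after a time `t > T` -/
def Wandering {X : Type*} [TopologicalSpace X] (φ : ℝ → X → X) (x : X) : Prop :=
  ∃ V : Set X, IsOpen V ∧ x ∈ V ∧ ∃ T : ℝ, ∀ t, T < t → ∀ y ∈ V, φ t y ∉ V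

/-- `x` is recurrent: its orbit returns to every neighbourhood of `x` at arbitrarily large times -/
def Recurrent {X : Type*} [TopologicalSpace X] (φ : ℝ → X → X) (x : X) : Prop :=
  ∀ V ∈ 𝓝 x, ∀ T : ℝ, ∃ t, T < t ∧ φ t x ∈ V

variable {X : Type*} [TopologicalSpace X] {φ : ℝ → X → X}

theorem IsFlow.rev (h : IsFlow φ) : IsFlow (rev φ) where
  cont := by
    have : Continuous (fun z : ℝ × X => (-z.1, z.2)) := by fun_prop
    exact h.cont.comp this
  zero x := by simp [Wand.rev, h.zero]
  add s t x := by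
    simp only [Wand.rev]
    rw [neg_add, h.add]

theorem IsFlow.cont_t (h : IsFlow φ) (t : ℝ) : Continuous (φ t) :=
  h.cont.comp (by fun_prop : Continuous (fun x : X => (t, x)))

theorem IsFlow.neg_self (h : IsFlow φ) (t : ℝ) (x : X) : φ (-t) (φ t x) = x := by
  rw [← h.add, neg_add_cancel, h.zero]

theorem IsFlow.self_neg (h : IsFlow φ) (t : ℝ) (x : X) : φ t (φ (-t) x) = x := by
  rw [← h.add, add_neg_cancel, h.zero]

/-- a set which does not return at the multiples of `N` escapes almost surely -/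
theorem escape_of_discrete [LocallyCompactSpace X] [SecondCountableTopology X] [T2Space X]
    [MeasurableSpace X] [BorelSpace X] (h : IsFlow φ) (μ : Measure X)
    [IsFiniteMeasureOnCompacts μ] (hμ : ∀ t, MeasurePreserving (φ t) μ μ) {A : Set X}
    (hA : MeasurableSet A) {N : ℕ} (hN : 0 < N)
    (hret : ∀ k : ℕ, 0 < k → ∀ y ∈ A, φ (k * N : ℝ) y ∉ A) :
    ∀ᵐ x ∂μ, x ∈ A → Escapes φ x := by
  have key : ∀ K : Set X, IsCompact K → ∀ᵐ x ∂μ, x ∈ A → ∀ᶠ t : ℝ in atTop, φ t x ∉ K := by
    intro K hK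
    set K' : Set X := (fun z : ℝ × X => φ (-z.1) z.2) '' (Icc (0 : ℝ) N ×ˢ K) with hK'
    have hcomp : IsCompact K' := by
      apply (isCompact_Icc.prod hK).image
      have : Continuous (fun z : ℝ × X => (-z.1, z.2)) := by fun_prop
      exact h.cont.comp this
    have hmK' : MeasurableSet K' := hcomp.isClosed.measurableSet
    set s : ℕ → Set X := fun k => A ∩ φ (k * N : ℝ) ⁻¹' K' with hs
    set r : ℕ → Set X := fun k => φ (-(k * N : ℝ)) ⁻¹' A ∩ K' with hr
    have hmr : ∀ k, MeasurableSet (r k) := fun k =>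
      ((h.cont_t _).measurable hA).inter hmK'
    have hsr : ∀ k, μ (s k) = μ (r k) := by
      intro k
      rw [← (hμ (k * N : ℝ)).measure_preimage (hmr k).nullMeasurableSet]
      congr 1
      ext x
      simp only [hs, hr, mem_inter_iff, mem_preimage, h.neg_self]
    have hdisj : Pairwise (Function.onFun Disjoint r) := by
      have aux : ∀ k l : ℕ, k < l → Disjoint (r k) (r l) := by
        intro k l hkl
        rw [Set.disjoint_left]
        rintro y ⟨hy1, _⟩ ⟨hy2, _⟩
        simp only [mem_preimage] at hy1 hy2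
        have e : φ (-(k * N : ℝ)) y = φ (((l - k : ℕ) : ℝ) * N) (φ (-(l * N : ℝ)) y) := by
          rw [← h.add]
          congr 1
          push_cast [Nat.cast_sub hkl.le]
          ring
        rw [e] at hy1
        exact hret (l - k) (Nat.sub_pos_of_lt hkl) _ hy2 hy1
      intro k l hkl
      rcases lt_or_gt_of_ne hkl with h1 | h1
      · exact aux k l h1
      · exact (aux l k h1).symm
    have hsum : ∑' k, μ (s k) ≠ ⊤ := by
      have : ∑' k, μ (s k) = μ (⋃ k, r k) := by
        rw [measure_iUnion hdisj hmr]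
        exact tsum_congr hsr
      rw [this]
      refine (lt_of_le_of_lt (measure_mono ?_) hcomp.measure_lt_top).ne
      exact iUnion_subset fun k => inter_subset_right
    filter_upwards [ae_eventually_notMem hsum] with x hx hxA
    obtain ⟨k0, hk0⟩ := eventually_atTop.1 hx
    filter_upwards [eventually_ge_atTop ((k0 : ℝ) * N)] with t ht htK
    have hNpos : (0 : ℝ) < N := Nat.cast_pos.2 hN
    have ht0 : 0 ≤ t / N := by
      apply div_nonneg _ hNpos.le
      exact (by positivity : (0 : ℝ) ≤ (k0 : ℝ) * N).trans ht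
    set k := ⌊t / N⌋₊ with hk
    have hk1 : (k : ℝ) ≤ t / N := Nat.floor_le ht0
    have hk2 : t / N < k + 1 := Nat.lt_floor_add_one _
    have hkk : k0 ≤ k := by
      apply Nat.le_floor
      rw [le_div_iff₀ hNpos]
      exact ht
    have h1 := hk0 k hkk
    apply h1
    refine ⟨hxA, ?_⟩
    simp only [mem_preimage, hK']
    refine ⟨(t - k * N, φ t x), ⟨⟨?_, ?_⟩, htK⟩, ?_⟩
    · have := (le_div_iff₀ hNpos).1 hk1
      simp only
      linarith
    · have := (div_lt_iff₀ hNpos).1 hk2
      simp only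
      linarith
    · simp only
      rw [← h.add]
      congr 1
      ring
  set K := CompactExhaustion.choice X
  have hall : ∀ᵐ x ∂μ, ∀ n, x ∈ A → ∀ᶠ t : ℝ in atTop, φ t x ∉ K n := by
    rw [ae_all_iff]
    exact fun n => key (K n) (K.isCompact n)
  filter_upwards [hall] with x hx hxA
  unfold Escapes
  rw [(hasBasis_cocompact (X := X)).tendsto_right_iff]
  intro C hC
  obtain ⟨n, hn⟩ := K.exists_superset_of_isCompact hC
  filter_upwards [hx n hxA] with t ht htC
  exact ht (hn htC)

/-- the same in both directions of time -/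
theorem escape_both [LocallyCompactSpace X] [SecondCountableTopology X] [T2Space X]
    [MeasurableSpace X] [BorelSpace X] (h : IsFlow φ) (μ : Measure X)
    [IsFiniteMeasureOnCompacts μ] (hμ : ∀ t, MeasurePreserving (φ t) μ μ) {A : Set X}
    (hA : MeasurableSet A) {N : ℕ} (hN : 0 < N)
    (hret : ∀ k : ℕ, 0 < k → ∀ y ∈ A, φ (k * N : ℝ) y ∉ A) :
    ∀ᵐ x ∂μ, x ∈ A → Escapes φ x ∧ Escapes (rev φ) x := by
  have h1 := escape_of_discrete h μ hμ hA hN hret
  have h2 := escape_of_discrete h.rev μ (fun t => hμ (-t)) hA hN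
    (fun k hk y hy hy' => by
      have := hret k hk _ hy'
      apply this
      simp only [Wand.rev]
      rw [h.self_neg]
      exact hy)
  filter_upwards [h1, h2] with x hx1 hx2 hxV
  exact ⟨hx1 hxV, hx2 hxV⟩

/-- almost every point of a wandering open set escapes in both directions of time -/
theorem escape_of_wandering [LocallyCompactSpace X] [SecondCountableTopology X] [T2Space X]
    [MeasurableSpace X] [BorelSpace X] (h : IsFlow φ) (μ : Measure X)
    [IsFiniteMeasureOnCompacts μ] (hμ : ∀ t, MeasurePreserving (φ t) μ μ) {V : Set X}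
    (hV : IsOpen V) {T : ℝ} (hw : ∀ t, T < t → ∀ y ∈ V, φ t y ∉ V) :
    ∀ᵐ x ∂μ, x ∈ V → Escapes φ x ∧ Escapes (rev φ) x := by
  obtain ⟨N, hN⟩ := exists_nat_gt (max T 0)
  have hN0 : 0 < N := by
    have : (0 : ℝ) < N := lt_of_le_of_lt (le_max_right _ _) hN
    exact_mod_cast this
  have hT : T < N := lt_of_le_of_lt (le_max_left _ _) hN
  have hkN : ∀ k : ℕ, 0 < k → T < (k : ℝ) * N := by
    intro k hk
    have h1 : (1 : ℝ) ≤ k := by exact_mod_cast hk
    have h2 : (0 : ℝ) < N := by exact_mod_cast hN0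
    nlinarith
  exact escape_both h μ hμ hV.measurableSet hN0 (fun k hk y hy => hw _ (hkN k hk) y hy)

/-- almost every point escapes in both directions of time, or is recurrent -/
theorem hopf_one [LocallyCompactSpace X] [SecondCountableTopology X] [T2Space X]
    [MeasurableSpace X] [BorelSpace X] (h : IsFlow φ) (μ : Measure X)
    [IsFiniteMeasureOnCompacts μ] (hμ : ∀ t, MeasurePreserving (φ t) μ μ) :
    ∀ᵐ x ∂μ, (Escapes φ x ∧ Escapes (rev φ) x) ∨ Recurrent φ x := by
  set ℬ := TopologicalSpace.countableBasis X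
  haveI : Countable ℬ := (TopologicalSpace.countable_countableBasis X).to_subtype
  have hopen : ∀ B : ℬ, IsOpen (B : Set X) := fun B =>
    TopologicalSpace.isOpen_of_mem_countableBasis B.2
  have key : ∀ a : ℬ × ℕ, ∀ᵐ x ∂μ, (x ∈ (a.1 : Set X) ∧ ∀ t : ℝ, (a.2 : ℝ) < t →
      φ t x ∉ (a.1 : Set X)) → Escapes φ x ∧ Escapes (rev φ) x := by
    rintro ⟨B, n⟩
    set A : Set X := {x | x ∈ (B : Set X) ∧ ∀ t : ℝ, (n : ℝ) < t → φ t x ∉ (B : Set X)} with hA
    have hmA : MeasurableSet A := by
      have : A = (B : Set X) ∩ (⋃ t : {t : ℝ // (n : ℝ) < t}, φ t ⁻¹' (B : Set X))ᶜ := by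
        ext x
        simp only [hA, mem_setOf_eq, mem_inter_iff, mem_compl_iff, mem_iUnion, mem_preimage,
          not_exists, Subtype.forall]
      rw [this]
      exact (hopen B).measurableSet.inter
        (isOpen_iUnion fun t => (hopen B).preimage (h.cont_t _)).measurableSet.compl
    have := escape_both h μ hμ hmA (N := n + 1) (Nat.succ_pos n) (fun k hk y hy hy' => by
      apply hy.2 _ _ hy'.1
      have h1 : (1 : ℝ) ≤ k := by exact_mod_cast hk
      push_cast
      nlinarith)
    exact this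
  have hall := ae_all_iff.2 key
  filter_upwards [hall] with x hx
  by_cases hr : Recurrent φ x
  · exact Or.inr hr
  · left
    unfold Recurrent at hr
    push_neg at hr
    obtain ⟨V, hV, T, hT⟩ := hr
    obtain ⟨B, hB, hxB, hBV⟩ := (TopologicalSpace.isBasis_countableBasis X).mem_nhds_iff.1 hV
    obtain ⟨n, hn⟩ := exists_nat_ge T
    exact hx (⟨B, hB⟩, n) ⟨hxB, fun t ht htB => hT t (lt_of_le_of_lt hn ht) (hBV htB)⟩

/-- almost every point escapes in both directions of time, or is recurrent in both directions -/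
theorem hopf [LocallyCompactSpace X] [SecondCountableTopology X] [T2Space X]
    [MeasurableSpace X] [BorelSpace X] (h : IsFlow φ) (μ : Measure X)
    [IsFiniteMeasureOnCompacts μ] (hμ : ∀ t, MeasurePreserving (φ t) μ μ) :
    ∀ᵐ x ∂μ, (Escapes φ x ∧ Escapes (rev φ) x) ∨ (Recurrent φ x ∧ Recurrent (rev φ) x) := by
  have h1 := hopf_one h μ hμ
  have h2 := hopf_one h.rev μ (fun t => hμ (-t))
  have hrr : rev (rev φ) = φ := by
    funext t
    simp [Wand.rev]
  rw [hrr] at h2
  filter_upwards [h1, h2] with x hx1 hx2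
  rcases hx1 with hx1 | hx1
  · exact Or.inl hx1
  · rcases hx2 with hx2 | hx2
    · exact Or.inl ⟨hx2.2, hx2.1⟩
    · exact Or.inr ⟨hx1, hx2⟩

theorem wandering_rev (h : IsFlow φ) (x : X) : Wandering (rev φ) x ↔ Wandering φ x := by
  constructor
  · rintro ⟨V, hV, hx, T, hT⟩
    refine ⟨V, hV, hx, T, fun t ht y hy hy' => hT t ht _ hy' ?_⟩
    simp only [Wand.rev]
    rw [h.neg_self]
    exact hy
  · rintro ⟨V, hV, hx, T, hT⟩
    refine ⟨V, hV, hx, T, fun t ht y hy hy' => hT t ht _ hy' ?_⟩
    simp only [Wand.rev]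
    rw [h.self_neg]
    exact hy

/-- generic points of an open set of nonwandering points are recurrent -/
theorem residual_recurrent [SecondCountableTopology X] (h : IsFlow φ) {U : Set X} (hU : IsOpen U)
    (hnw : ∀ x ∈ U, ¬ Wandering φ x) : ∀ᶠ x in residual X, x ∈ U → Recurrent φ x := by
  set ℬ := TopologicalSpace.countableBasis X
  haveI : Countable ℬ := (TopologicalSpace.countable_countableBasis X).to_subtype
  have hopen : ∀ B : ℬ, IsOpen (B : Set X) := fun B =>
    TopologicalSpace.isOpen_of_mem_countableBasis B.2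
  have key : ∀ a : ℬ × ℕ, ∀ᶠ x in residual X, x ∈ U → x ∈ (a.1 : Set X) →
      ∃ t : ℝ, (a.2 : ℝ) < t ∧ φ t x ∈ (a.1 : Set X) := by
    rintro ⟨B, n⟩
    set O : Set X := ⋃ t : {t : ℝ // (n : ℝ) < t}, φ t ⁻¹' (B : Set X) with hO
    have hOo : IsOpen O := isOpen_iUnion fun t => (hopen B).preimage (h.cont_t _)
    have ho : IsOpen (O ∪ (closure ((B : Set X) ∩ U))ᶜ) := hOo.union isClosed_closure.isOpen_compl
    have hd : Dense (O ∪ (closure ((B : Set X) ∩ U))ᶜ) := by
      rw [dense_iff_inter_open]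
      intro W hW hne
      by_cases hWB : (W ∩ ((B : Set X) ∩ U)).Nonempty
      · obtain ⟨x, hxW, hxB, hxU⟩ := hWB
        have hxn := hnw x hxU
        unfold Wandering at hxn
        push_neg at hxn
        obtain ⟨t, ht, y, hy, hyt⟩ := hxn (W ∩ ((B : Set X) ∩ U)) (hW.inter ((hopen B).inter hU))
          ⟨hxW, hxB, hxU⟩ n
        exact ⟨y, hy.1, Or.inl (mem_iUnion.2 ⟨⟨t, ht⟩, hyt.2.1⟩)⟩
      · obtain ⟨x, hx⟩ := hne
        refine ⟨x, hx, Or.inr fun hcl => ?_⟩
        rw [mem_closure_iff] at hcl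
        exact hWB (hcl W hW hx)
    filter_upwards [residual_of_dense_open ho hd] with x hx hxU hxB
    rcases hx with hx | hx
    · obtain ⟨⟨t, ht⟩, hxt⟩ := mem_iUnion.1 hx
      exact ⟨t, ht, hxt⟩
    · exact (hx (subset_closure (show x ∈ (B : Set X) ∩ U from ⟨hxB, hxU⟩))).elim
  have hall : ∀ᶠ x in residual X, ∀ a : ℬ × ℕ, x ∈ U → x ∈ (a.1 : Set X) →
      ∃ t : ℝ, (a.2 : ℝ) < t ∧ φ t x ∈ (a.1 : Set X) := eventually_countable_forall.2 key
  filter_upwards [hall] with x hx hxU
  intro V hV T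
  obtain ⟨B, hB, hxB, hBV⟩ := (TopologicalSpace.isBasis_countableBasis X).mem_nhds_iff.1 hV
  obtain ⟨n, hn⟩ := exists_nat_ge T
  obtain ⟨t, ht, hxt⟩ := hx (⟨B, hB⟩, n) hxU hxB
  exact ⟨t, lt_of_le_of_lt hn ht, hBV hxt⟩

/-- recurrent points do not escape (in a locally compact space) -/
theorem not_escapes_of_recurrent [LocallyCompactSpace X] {x : X} (hr : Recurrent φ x) :
    ¬ Escapes φ x := by
  intro he
  obtain ⟨K, hK, hxK⟩ := exists_compact_mem_nhds x
  have h1 : ∀ᶠ t : ℝ in atTop, φ t x ∉ K := he.eventually (hK.compl_mem_cocompact)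
  obtain ⟨T, hT⟩ := eventually_atTop.1 h1
  obtain ⟨t, ht, htK⟩ := hr K hxK T
  exact hT t ht.le htK

end Pool.Agent.Q205.Wand
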